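import Pool.Agent.H22.AN.TB3
import Pool.Agent.H80.AN.TargetsA

/-!
# Masses, centroids and quantisation in the frame of the optimal plane
-/

set_option autoImplicit false
set_option linter.unusedVariables false

namespace Pool.Agent.H36.AN

open MeasureTheory Metric Set Filter Topology Pool.Agent.H87.SN Pool.Agent.H87.SH Pool.Agent.H87.AX
open Pool.Agent.H22.AN
open scoped ContDiff RealInnerProductSpace ENNReal

noncomputable section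

theorem mul_le_of_le_div {a x s : ℝ} (ha : 0 ≤ a) (hx : 0 ≤ x) (hs : s ≤ x / (a + 1)) :
    a * s ≤ x := by
  have h1 : a * s ≤ a * (x / (a + 1)) := mul_le_mul_of_nonneg_left hs ha
  refine h1.trans ?_
  rw [mul_div_assoc', div_le_iff₀ (by linarith)]
  nlinarith

/-- the choice of the constants -/
theorem choose_consts (d : ℕ) {h c κ δq Λ C0 CA CO e₀ : ℝ} (hh : 0 < h) (hc : 0 < c)
    (hκ : 0 < κ) (hδq : 0 < δq) (hΛ : 0 < Λ) (hC0 : 0 ≤ C0) (hCA : 0 ≤ CA) (hCO : 0 ≤ CO)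
    (he₀ : 0 < e₀) : ∃ r₁ δ v : ℝ, 0 < r₁ ∧ r₁ ≤ h / 100 ∧ r₁ ≤ κ * h ∧ 0 < δ ∧ 0 < v ∧ v ≤ 1 ∧
      C0 / h ^ (d + 3) * (CA / (1 - 5 / 8) ^ 2 * v + CO * δ ^ 2 / r₁ ^ 2 + r₁ * (Λ * 2 ^ d)) ≤
        c / 2 ∧ CO * δ ^ 2 / h ^ 2 ≤ e₀ * (1 / 32) ^ d / 4 ∧
      CO * δ ^ 2 / (κ * h) ^ 2 ≤ δq * h ^ d := by
  have hK : 0 ≤ C0 / h ^ (d + 3) := by positivity
  have hA : 0 ≤ CA / (1 - 5 / 8) ^ 2 := by positivity
  have hL : 0 ≤ Λ * 2 ^ d := by positivity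
  generalize C0 / h ^ (d + 3) = K at hK
  generalize CA / (1 - 5 / 8) ^ 2 = A at hA
  generalize Λ * 2 ^ d = L at hL
  obtain ⟨b, hb, hKb⟩ : ∃ b : ℝ, 0 < b ∧ K * (3 * b) ≤ c / 2 := by
    refine ⟨c / 2 / (K + 1) / 3, by positivity, mul_le_of_le_div hK (by positivity) (by linarith)⟩
  obtain ⟨v, hv, hv1, hvA⟩ : ∃ v : ℝ, 0 < v ∧ v ≤ 1 ∧ A * v ≤ b :=
    ⟨min 1 (b / (A + 1)), lt_min one_pos (by positivity), min_le_left _ _,
      mul_le_of_le_div hA hb.le (min_le_right _ _)⟩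
  obtain ⟨r, hr, hr1, hr2, hrL⟩ : ∃ r : ℝ, 0 < r ∧ r ≤ h / 100 ∧ r ≤ κ * h ∧ L * r ≤ b :=
    ⟨min (min (h / 100) (κ * h)) (b / (L + 1)),
      lt_min (lt_min (by positivity) (by positivity)) (by positivity),
      (min_le_left _ _).trans (min_le_left _ _), (min_le_left _ _).trans (min_le_right _ _),
      mul_le_of_le_div hL hb.le (min_le_right _ _)⟩
  have x1 : 0 < b * r ^ 2 := by positivity
  have x2 : 0 < e₀ * (1 / 32) ^ d / 4 * h ^ 2 := by positivity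
  have x3 : 0 < δq * h ^ d * (κ * h) ^ 2 := by positivity
  obtain ⟨s, hs, hs1, hs2, hs3⟩ : ∃ s : ℝ, 0 < s ∧ CO * s ≤ b * r ^ 2 ∧
      CO * s ≤ e₀ * (1 / 32) ^ d / 4 * h ^ 2 ∧ CO * s ≤ δq * h ^ d * (κ * h) ^ 2 := by
    refine ⟨min (min (b * r ^ 2 / (CO + 1)) (e₀ * (1 / 32) ^ d / 4 * h ^ 2 / (CO + 1)))
      (δq * h ^ d * (κ * h) ^ 2 / (CO + 1)), lt_min (lt_min (by positivity) (by positivity))
      (by positivity), ?_, ?_, ?_⟩
    · exact mul_le_of_le_div hCO x1.le ((min_le_left _ _).trans (min_le_left _ _))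
    · exact mul_le_of_le_div hCO x2.le ((min_le_left _ _).trans (min_le_right _ _))
    · exact mul_le_of_le_div hCO x3.le (min_le_right _ _)
  refine ⟨r, Real.sqrt s, v, hr, hr1, hr2, Real.sqrt_pos.2 hs, hv, hv1, ?_, ?_, ?_⟩
  · rw [Real.sq_sqrt hs.le]
    have y1 : CO * s / r ^ 2 ≤ b := by
      rw [div_le_iff₀ (by positivity)]
      exact hs1
    refine (mul_le_mul_of_nonneg_left ?_ hK).trans hKb
    rw [mul_comm r L]
    linarith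
  · rw [Real.sq_sqrt hs.le, div_le_iff₀ (by positivity)]
    exact hs2
  · rw [Real.sq_sqrt hs.le, div_le_iff₀ (by positivity)]
    exact hs3

/-- the error is increased -/
theorem cen_mono {d m : ℕ} {G : V d → V d →L[ℝ] E m} {h R J J' mb y0 y1 : ℝ} {s0 s1 : E d}
    (hC : Cen G h R J mb y0 y1 s0 s1) (hJ : J ≤ J') : Cen G h R J' mb y0 y1 s0 s1 :=
  ⟨fun z t h1 h2 h3 => (hC.w1 z t h1 h2 h3).trans hJ,
    fun z t h1 h2 h3 => ⟨(hC.w2 z t h1 h2 h3).1.trans hJ, (hC.w2 z t h1 h2 h3).2.trans hJ⟩,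
    fun z t h1 h2 h3 a => (hC.w3 z t h1 h2 h3 a).trans hJ⟩

/-- **Masses, centroids and quantisation in the frame of the optimal plane.** -/
theorem pf_F1C (hCAC : T_CAC) (hOCN : T_OCN) (hCE0 : T_CE0) (hMLB : T_MLB) (hCEN : T_CEN)
    (hQNT : T_QNT) (hMUF : T_MUF) : T_F1C := by
  intro d m L Λ ε er e₀ hd hL hΛ hε her hEP he₀
  obtain ⟨c₁, hc₁, hM⟩ := hMLB d
  have hc : 0 < c₁ * e₀ := mul_pos hc₁ he₀
  obtain ⟨CE, hCE, hE⟩ := hCEN d Λ (c₁ * e₀) hΛ hc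
  obtain ⟨κ, δq, hκ, hκ1, hδq, hQ⟩ := hQNT d (c₁ * e₀ / 2) (by positivity)
  obtain ⟨CA, hCA, hA⟩ := hCAC d
  obtain ⟨CO, hCO, hO⟩ := hOCN d
  obtain ⟨C0, hC0, h0⟩ := hCE0 d
  refine ⟨c₁ * e₀, max 1 CE, hc, le_max_left _ _, ?_⟩
  intro h hh hh1
  obtain ⟨r₁, δ, v, hr₁, hr₁h, hr₁κ, hδ, hv, hv1, k1, k2, k3⟩ :=
    choose_consts d hh hc hκ hδq hΛ hC0 hCA hCO he₀
  refine ⟨r₁, δ, v, hr₁, hr₁h, hδ, hv, ?_⟩
  intro U u G x₁ hF
  have hr₁h' : r₁ ≤ h := hr₁h.trans (by linarith)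
  have hV0 : 0 ≤ V2 G 1 := by
    unfold V2
    refine integral_nonneg fun x => ?_
    show 0 ≤ rho x ^ 2 * nsq (G x)
    unfold nsq
    positivity
  have hb1 : ball (0 : V d) (5 / 8) ⊆ ball 0 1 := ball_subset_ball (by norm_num)
  -- the energy in the neck
  have o1 : oc G r₁ (5 / 8) ≤ CO * δ ^ 2 / r₁ ^ 2 :=
    (hO m L Λ ε U u G hF.sm r₁ δ (5 / 8) hr₁ (by norm_num)
      fun x hx h1 => hF.nk x (hb1 hx) h1).1
  have o2 : oc G h (5 / 8) ≤ CO * δ ^ 2 / h ^ 2 :=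
    (hO m L Λ ε U u G hF.sm h δ (5 / 8) hh (by norm_num)
      fun x hx h1 => hF.nk x (hb1 hx) (hr₁h'.trans h1)).1
  have o3 : oc G (κ * h) 1 ≤ CO * δ ^ 2 / (κ * h) ^ 2 :=
    (hO m L Λ ε U u G hF.sm (κ * h) δ 1 (by positivity) (by norm_num)
      fun x hx h1 => hF.nk x hx (hr₁κ.trans h1)).1
  have a1 : ∫ x in ball (0 : V d) (5 / 8), nzs (G x) ≤ CA / (1 - 5 / 8) ^ 2 * v := by
    refine (hA m G hF.sm.gd.memG hF.sm.gd.stat (5 / 8) 1 (by norm_num) (by norm_num)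
      (by norm_num)).trans ?_
    exact mul_le_mul_of_nonneg_left hF.v2 (by positivity)
  have d1 : (mu G).real (ball 0 2) ≤ Λ * 2 ^ d :=
    hF.sm.gd.den 0 2 (by norm_num) le_rfl
  have hJ : C0 / h ^ (d + 3) * ((∫ x in ball (0 : V d) (5 / 8), nzs (G x)) +
      oc G r₁ (5 / 8) + r₁ * (mu G).real (ball 0 2)) ≤ c₁ * e₀ / 2 := by
    refine (mul_le_mul_of_nonneg_left ?_ (by positivity)).trans k1
    exact add_le_add (add_le_add a1 o1) (mul_le_mul_of_nonneg_left d1 hr₁.le)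
  have hCen : Cen G h (1 / 4) (c₁ * e₀ / 2) (ms G h 0 (1 / 16)) 0 0 0 0 :=
    cen_mono (h0 m G hF.sm.gd.memG hF.sm.gd.stat h r₁ hr₁ hr₁h' (hh1.trans (by norm_num))) hJ
  have hmb : c₁ * e₀ ≤ ms G h 0 (1 / 16) := by
    refine hM m G hF.sm.gd.memG x₁ h e₀ (1 / 32) hh hh1 he₀.le (Or.inr rfl) ?_ hF.rx hF.ch
      (o2.trans k2) (cen_mono hCen (by linarith))
    rw [hF.zx, norm_zero]
    norm_num
  refine ⟨fun x t h1 h2 h3 h4 => ?_, fun R hR hR1 => ?_⟩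
  · refine hQ m L Λ ε er hEP U u G hF.sm h (1 / 4) hh hh1 le_rfl ?_ (o3.trans k3) x t h1 h2 h3 h4
    intro z₀ t' h5 h6 h7
    have h8 := (abs_le.1 (hCen.w1 z₀ t' h5 h6 h7)).1
    linarith
  · obtain ⟨y0, y1, s0, s1, e1, e2⟩ := hE m G hF.sm.gd h R hh (hh1.trans (by norm_num)) hR hR1
      hmb (hF.v2.trans hv1)
    have hm : CE ≤ max 1 CE := le_max_right _ _
    refine ⟨ms G h 0 (1 / 16), y0, y1, s0, s1, hmb, ?_, cen_mono e2 ?_⟩
    · exact e1.trans (mul_le_mul_of_nonneg_right hm (Real.sqrt_nonneg _))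
    · refine add_le_add ?_ ?_
      · refine mul_le_mul_of_nonneg_right ?_ hV0
        exact div_le_div_of_nonneg_right hm (by positivity)
      · refine mul_le_mul_of_nonneg_right ?_ (Real.sqrt_nonneg _)
        exact mul_le_mul_of_nonneg_right hm (by positivity)

end

end Pool.Agent.H36.AN
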