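import Pool.Agent.H22.AN.TB2

/-!
# The Nash step for functions
-/

set_option autoImplicit false
set_option linter.unusedVariables false

namespace Pool.Agent.H36.AN

open MeasureTheory Metric Set Filter Topology Pool.Agent.H87.SN Pool.Agent.H87.SH Pool.Agent.H87.AX
open Pool.Agent.H22.AN
open scoped ContDiff RealInnerProductSpace ENNReal

noncomputable section

section tools

variable {d : ℕ} {Y : Type} [NormedAddCommGroup Y] [MeasurableSpace Y] [BorelSpace Y]
  [SecondCountableTopology Y] {ν : Measure Y} [SFinite ν] [IsFiniteMeasureOnCompacts ν]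

/-- continuous functions are integrable on bounded sets of the product -/
theorem int_prod {A K : Set (E d)} {B L : Set Y} (hK : IsCompact K) (hL : IsCompact L)
    (hA : A ⊆ K) (hB : B ⊆ L) {F : E d → Y → ℝ} (hF : Continuous (Function.uncurry F)) :
    Integrable (Function.uncurry F) ((volume.restrict A).prod (ν.restrict B)) := by
  rw [Measure.prod_restrict]
  exact ((hF.continuousOn (s := K ×ˢ L)).integrableOn_compact (hK.prod hL)).mono_set
    (prod_mono hA hB)

/-- the order of integration -/
theorem swap_cont {A K : Set (E d)} {B L : Set Y} (hK : IsCompact K) (hL : IsCompact L)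
    (hA : A ⊆ K) (hB : B ⊆ L) {F : E d → Y → ℝ} (hF : Continuous (Function.uncurry F)) :
    ∫ x in A, ∫ y in B, F x y ∂ν = ∫ y in B, (∫ x in A, F x y) ∂ν :=
  integral_integral_swap (int_prod hK hL hA hB hF)

/-- continuous functions are integrable on balls -/
theorem int_ball {F : E d → ℝ} (hF : Continuous F) (a : E d) (ρ : ℝ) :
    IntegrableOn F (ball a ρ) :=
  ((hF.continuousOn (s := closedBall a ρ)).integrableOn_compact
    (isCompact_closedBall a ρ)).mono_set ball_subset_closedBall

/-- translation -/
theorem shift_le {F : E d → ℝ} (hF : Continuous F) (h0 : ∀ x, 0 ≤ F x) (a : E d) (ρ R : ℝ)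
    (h : ‖a‖ + ρ ≤ R) : ∫ x in ball (0 : E d) ρ, F (x + a) ≤ ∫ x in ball (0 : E d) R, F x := by
  have h1 := (measurePreserving_add_right (volume : Measure (E d)) a).setIntegral_preimage_emb
    (MeasurableEquiv.addRight a).measurableEmbedding F (ball a ρ)
  have h2 : (fun x : E d => x + a) ⁻¹' ball a ρ = ball 0 ρ := by
    ext x
    simp [mem_ball, dist_eq_norm]
  rw [h2] at h1
  rw [h1]
  refine setIntegral_mono_set (int_ball hF 0 R) (Eventually.of_forall fun x => h0 x)
    (Eventually.of_forall ?_)
  refine ball_subset_ball' ?_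
  rw [dist_zero_right]
  linarith

end tools

variable {d : ℕ}

/-- the pointwise inequality -/
theorem nash_point {g : E d → ℝ} (hg : Continuous g) (h0 : ∀ z, 0 ≤ g z) {r w : ℝ} (hr : 0 < r)
    (hw : (volume : Measure (E d)).real (ball 0 r) = w) (hw0 : 0 < w) (z : E d) :
    g z ≤ (w⁻¹ * ∫ v in ball (0 : E d) r, Real.sqrt (g (z + v))) ^ 2 +
      2 * w⁻¹ * ∫ v in ball (0 : E d) r, |g (z + v) - g z| := by
  have hc1 : Continuous fun v : E d => Real.sqrt (g (z + v)) :=
    (hg.comp (continuous_const.add continuous_id)).sqrt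
  have hc2 : Continuous fun v : E d => |g (z + v) - g z| :=
    ((hg.comp (continuous_const.add continuous_id)).sub continuous_const).abs
  set a : ℝ := Real.sqrt (g z) with ha
  have ha0 : 0 ≤ a := Real.sqrt_nonneg _
  have hag : a ^ 2 = g z := Real.sq_sqrt (h0 z)
  set M : ℝ := ∫ v in ball (0 : E d) r, Real.sqrt (g (z + v)) with hM
  set D : ℝ := ∫ v in ball (0 : E d) r, |g (z + v) - g z| with hD
  have h1 : w * a ^ 2 ≤ a * M + D := by
    have h2 : ∫ v in ball (0 : E d) r, (a ^ 2 : ℝ) ≤
        ∫ v in ball (0 : E d) r, (a * Real.sqrt (g (z + v)) + |g (z + v) - g z|) := by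
      refine integral_mono (integrable_const_iff.2 (Or.inr ?_))
        (((int_ball hc1 0 r).const_mul a).add (int_ball hc2 0 r)) fun v => ?_
      · exact ⟨by rw [Measure.restrict_apply_univ]; exact measure_ball_lt_top⟩
      · show a ^ 2 ≤ a * Real.sqrt (g (z + v)) + |g (z + v) - g z|
        set b : ℝ := Real.sqrt (g (z + v)) with hb
        have hb0 : 0 ≤ b := Real.sqrt_nonneg _
        have hbg : b ^ 2 = g (z + v) := Real.sq_sqrt (h0 _)
        rw [← hbg, ← hag]
        rcases le_total a b with h | h
        · have h3 := abs_nonneg (b ^ 2 - a ^ 2)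
          nlinarith
        · have h3 := neg_abs_le (b ^ 2 - a ^ 2)
          nlinarith
    rw [integral_add ((int_ball hc1 0 r).const_mul a) (int_ball hc2 0 r), integral_const_mul,
      setIntegral_const, hw, smul_eq_mul] at h2
    exact h2
  have h4 : a ^ 2 ≤ a * (w⁻¹ * M) + w⁻¹ * D := by
    have h5 : w⁻¹ * (w * a ^ 2) ≤ w⁻¹ * (a * M + D) :=
      mul_le_mul_of_nonneg_left h1 (inv_nonneg.2 hw0.le)
    rw [inv_mul_cancel_left₀ hw0.ne'] at h5
    linarith
  rw [← hag]
  nlinarith [sq_nonneg (a - w⁻¹ * M)]

/-- the differences -/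
theorem diff_le {g : E d → ℝ} (hg : ContDiff ℝ 1 g) {r : ℝ} (hr : r ≤ 1 / 64) (v : E d)
    (hv : ‖v‖ ≤ r) : ∫ z in ball (0 : E d) (9 / 32), |g (z + v) - g z| ≤
      r * ∫ z in ball (0 : E d) (5 / 16), ‖fderiv ℝ g z‖ := by
  have hr0 : 0 ≤ r := (norm_nonneg v).trans hv
  have hcd : Continuous (fderiv ℝ g) := hg.continuous_fderiv (by norm_num)
  have hcF : Continuous (Function.uncurry fun (z : E d) (s : ℝ) => r * ‖fderiv ℝ g (z + s • v)‖) := by
    show Continuous fun p : E d × ℝ => r * ‖fderiv ℝ g (p.1 + p.2 • v)‖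
    fun_prop
  have h1 : ∀ z : E d, |g (z + v) - g z| ≤ ∫ s in Ioc (0 : ℝ) 1, r * ‖fderiv ℝ g (z + s • v)‖ := by
    intro z
    have h2 : ∀ s ∈ uIcc (0 : ℝ) 1, HasDerivAt (fun s : ℝ => g (z + s • v))
        (fderiv ℝ g (z + s • v) v) s := by
      intro s _
      have h3 : HasDerivAt (fun s : ℝ => z + s • v) v s := by
        have h4 := ((hasDerivAt_id s).smul_const v).const_add z
        simpa using h4
      exact ((hg.differentiable (by norm_num)).differentiableAt
        (x := z + s • v)).hasFDerivAt.comp_hasDerivAt s h3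
    have h4 : Continuous fun s : ℝ => fderiv ℝ g (z + s • v) v :=
      (hcd.comp (by fun_prop : Continuous fun s : ℝ => z + s • v)).clm_apply continuous_const
    have h5 := intervalIntegral.integral_eq_sub_of_hasDerivAt h2 (h4.intervalIntegrable _ _)
    simp only [one_smul, zero_smul, add_zero] at h5
    rw [← h5, intervalIntegral.integral_of_le zero_le_one, ← Real.norm_eq_abs]
    have h6 : Continuous fun s : ℝ => r * ‖fderiv ℝ g (z + s • v)‖ := by fun_prop
    refine norm_integral_le_of_norm_le ?_ (Eventually.of_forall fun s => ?_)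
    · exact (h6.continuousOn.integrableOn_compact (isCompact_Icc (a := (0 : ℝ)) (b := 1))).mono_set
        Ioc_subset_Icc_self
    · refine ((fderiv ℝ g (z + s • v)).le_opNorm v).trans ?_
      rw [mul_comm]
      exact mul_le_mul_of_nonneg_right hv (norm_nonneg _)
  have hK := isCompact_closedBall (0 : E d) (9 / 32)
  have hL := isCompact_Icc (a := (0 : ℝ)) (b := 1)
  have hcd2 : Continuous fun z : E d => |g (z + v) - g z| :=
    ((hg.continuous.comp (continuous_id.add continuous_const)).sub hg.continuous).abs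
  have h7 : ∫ z in ball (0 : E d) (9 / 32), |g (z + v) - g z| ≤
      ∫ z in ball (0 : E d) (9 / 32), ∫ s in Ioc (0 : ℝ) 1, r * ‖fderiv ℝ g (z + s • v)‖ :=
    integral_mono (int_ball hcd2 0 _)
      (int_prod (ν := (volume : Measure ℝ)) hK hL ball_subset_closedBall Ioc_subset_Icc_self
        hcF).integral_prod_left h1
  refine h7.trans ?_
  rw [swap_cont (ν := (volume : Measure ℝ)) hK hL ball_subset_closedBall Ioc_subset_Icc_self hcF]
  have h8 : ∫ s in Ioc (0 : ℝ) 1, (∫ z in ball (0 : E d) (9 / 32), r * ‖fderiv ℝ g (z + s • v)‖) ≤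
      ∫ s in Ioc (0 : ℝ) 1, (r * ∫ z in ball (0 : E d) (5 / 16), ‖fderiv ℝ g z‖) := by
    refine setIntegral_mono_on ?_ ?_ measurableSet_Ioc fun s hs => ?_
    · exact (int_prod (ν := (volume : Measure ℝ)) hK hL ball_subset_closedBall Ioc_subset_Icc_self
        hcF).integral_prod_right
    · exact integrableOn_const (by simp)
    · rw [integral_const_mul]
      refine mul_le_mul_of_nonneg_left ?_ hr0
      refine shift_le (F := fun z => ‖fderiv ℝ g z‖) hcd.norm (fun _ => norm_nonneg _) (s • v) _ _ ?_
      have h9 : ‖s • v‖ ≤ r := by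
        rw [norm_smul, Real.norm_eq_abs, abs_of_pos hs.1]
        calc s * ‖v‖ ≤ 1 * ‖v‖ := mul_le_mul_of_nonneg_right hs.2 (norm_nonneg _)
          _ ≤ r := by rw [one_mul]; exact hv
      linarith
  refine h8.trans (le_of_eq ?_)
  rw [setIntegral_const, Real.volume_real_Ioc_of_le zero_le_one, sub_zero, one_smul]

/-- **The Nash step for functions.** -/
theorem pf_NSF : T_NSF := by
  intro d
  refine ⟨((volume : Measure (E d)).real (ball 0 1))⁻¹, inv_nonneg.2 measureReal_nonneg, ?_⟩
  intro g r hg h0 hr hr1
  set w : ℝ := (volume : Measure (E d)).real (ball 0 r) with hw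
  have hw0 : 0 < w := ENNReal.toReal_pos (measure_ball_pos _ _ hr).ne' measure_ball_lt_top.ne
  have hw1 : w = r ^ d * (volume : Measure (E d)).real (ball 0 1) := by
    rw [hw, measureReal_def, Measure.addHaar_ball_of_pos _ _ hr, ENNReal.toReal_mul,
      ENNReal.toReal_ofReal (by positivity), finrank_euclideanSpace_fin]
    rfl
  set S : ℝ := ∫ z in ball (0 : E d) (5 / 16), Real.sqrt (g z) with hS
  set T : ℝ := ∫ z in ball (0 : E d) (5 / 16), ‖fderiv ℝ g z‖ with hT
  have hgc : Continuous g := hg.continuous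
  have hS0 : 0 ≤ S := integral_nonneg fun z => Real.sqrt_nonneg _
  have hcs : Continuous fun z => Real.sqrt (g z) := hgc.sqrt
  have hc1 : Continuous (Function.uncurry fun (z v : E d) => Real.sqrt (g (z + v))) := by
    show Continuous fun p : E d × E d => Real.sqrt (g (p.1 + p.2))
    exact (hgc.comp (continuous_fst.add continuous_snd)).sqrt
  have hc2 : Continuous (Function.uncurry fun (z v : E d) => |g (z + v) - g z|) := by
    show Continuous fun p : E d × E d => |g (p.1 + p.2) - g p.1|
    exact ((hgc.comp (continuous_fst.add continuous_snd)).sub (hgc.comp continuous_fst)).abs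
  have hK := isCompact_closedBall (0 : E d) (9 / 32)
  have hL := isCompact_closedBall (0 : E d) r
  have hi1 : Integrable (fun z : E d => ∫ v in ball (0 : E d) r, Real.sqrt (g (z + v)))
      (volume.restrict (ball (0 : E d) (9 / 32))) :=
    (int_prod (ν := (volume : Measure (E d))) hK hL ball_subset_closedBall ball_subset_closedBall
      hc1).integral_prod_left
  have hi2 : Integrable (fun z : E d => ∫ v in ball (0 : E d) r, |g (z + v) - g z|)
      (volume.restrict (ball (0 : E d) (9 / 32))) :=
    (int_prod (ν := (volume : Measure (E d))) hK hL ball_subset_closedBall ball_subset_closedBall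
      hc2).integral_prod_left
  -- the first term
  have h1 : ∫ z in ball (0 : E d) (9 / 32), (∫ v in ball (0 : E d) r, Real.sqrt (g (z + v))) ≤
      w * S := by
    rw [swap_cont (ν := (volume : Measure (E d))) hK hL ball_subset_closedBall
      ball_subset_closedBall hc1]
    have h2 : ∫ v in ball (0 : E d) r, (∫ z in ball (0 : E d) (9 / 32), Real.sqrt (g (z + v))) ≤
        ∫ v in ball (0 : E d) r, S := by
      refine setIntegral_mono_on ?_ (integrableOn_const measure_ball_lt_top.ne) measurableSet_ball
        fun v hv => ?_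
      · exact (int_prod (ν := (volume : Measure (E d))) hK hL ball_subset_closedBall
          ball_subset_closedBall hc1).integral_prod_right
      · refine shift_le (F := fun z => Real.sqrt (g z)) hcs (fun _ => Real.sqrt_nonneg _) v _ _ ?_
        have h3 : ‖v‖ < r := by simpa using hv
        linarith
    rw [setIntegral_const, smul_eq_mul] at h2
    exact h2
  -- the second term
  have h4 : ∫ z in ball (0 : E d) (9 / 32), (∫ v in ball (0 : E d) r, |g (z + v) - g z|) ≤
      w * (r * T) := by
    rw [swap_cont (ν := (volume : Measure (E d))) hK hL ball_subset_closedBall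
      ball_subset_closedBall hc2]
    have h2 : ∫ v in ball (0 : E d) r, (∫ z in ball (0 : E d) (9 / 32), |g (z + v) - g z|) ≤
        ∫ v in ball (0 : E d) r, r * T := by
      refine setIntegral_mono_on ?_ (integrableOn_const measure_ball_lt_top.ne) measurableSet_ball
        fun v hv => ?_
      · exact (int_prod (ν := (volume : Measure (E d))) hK hL ball_subset_closedBall
          ball_subset_closedBall hc2).integral_prod_right
      · have h3 : ‖v‖ < r := by simpa using hv
        exact diff_le hg hr1 v h3.le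
    rw [setIntegral_const, smul_eq_mul] at h2
    exact h2
  -- the pointwise inequality
  have h5 : ∫ z in ball (0 : E d) (9 / 32), g z ≤ ∫ z in ball (0 : E d) (9 / 32),
      (w⁻¹ ^ 2 * S * (∫ v in ball (0 : E d) r, Real.sqrt (g (z + v))) +
        2 * w⁻¹ * ∫ v in ball (0 : E d) r, |g (z + v) - g z|) := by
    refine setIntegral_mono_on (int_ball hgc 0 _) ((hi1.const_mul _).add (hi2.const_mul _))
      measurableSet_ball fun z hz => ?_
    have h6 := nash_point hgc h0 hr hw.symm hw0 z
    have h7 : ∫ v in ball (0 : E d) r, Real.sqrt (g (z + v)) ≤ S := by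
      have h8 := shift_le (F := fun z => Real.sqrt (g z)) hcs (fun _ => Real.sqrt_nonneg _) z r
        (5 / 16) (by
          have h3 : ‖z‖ < 9 / 32 := by simpa using hz
          linarith)
      simp_rw [add_comm z]
      exact h8
    have h9 : 0 ≤ ∫ v in ball (0 : E d) r, Real.sqrt (g (z + v)) :=
      integral_nonneg fun z => Real.sqrt_nonneg _
    refine h6.trans (add_le_add ?_ le_rfl)
    rw [mul_pow, mul_assoc, sq (∫ v in ball (0 : E d) r, Real.sqrt (g (z + v)))]
    exact mul_le_mul_of_nonneg_left (mul_le_mul_of_nonneg_right h7 h9) (by positivity)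
  refine h5.trans ?_
  rw [integral_add (hi1.const_mul _) (hi2.const_mul _), integral_const_mul, integral_const_mul]
  have h10 : w⁻¹ ^ 2 * S * (∫ z in ball (0 : E d) (9 / 32),
      (∫ v in ball (0 : E d) r, Real.sqrt (g (z + v)))) ≤ w⁻¹ ^ 2 * S * (w * S) :=
    mul_le_mul_of_nonneg_left h1 (by positivity)
  have h11 : 2 * w⁻¹ * (∫ z in ball (0 : E d) (9 / 32),
      (∫ v in ball (0 : E d) r, |g (z + v) - g z|)) ≤ 2 * w⁻¹ * (w * (r * T)) :=
    mul_le_mul_of_nonneg_left h4 (by positivity)
  have h12 : w⁻¹ ^ 2 * S * (w * S) =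
      ((volume : Measure (E d)).real (ball 0 1))⁻¹ * (r ^ d)⁻¹ * S ^ 2 := by
    have h13 : w⁻¹ = ((volume : Measure (E d)).real (ball 0 1))⁻¹ * (r ^ d)⁻¹ := by
      rw [hw1, mul_inv, mul_comm]
    rw [← h13]
    field_simp
  have h14 : 2 * w⁻¹ * (w * (r * T)) = 2 * r * T := by
    field_simp
  rw [h12] at h10
  rw [h14] at h11
  exact add_le_add h10 h11

end

end Pool.Agent.H36.AN
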