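import Pool.Agent.H80.AN.TargetsA

/-!
# A good point off a lower dimensional plane
-/

set_option autoImplicit false
set_option linter.unusedVariables false

namespace Pool.Agent.H36.AN

open MeasureTheory Metric Set Filter Topology Pool.Agent.H87.SN Pool.Agent.H87.SH Pool.Agent.H87.AX
open Pool.Agent.H22.AN
open scoped ContDiff RealInnerProductSpace ENNReal

noncomputable section

/-- Three orthonormal vectors which are orthogonal to less than `d` vectors. -/
theorem exists_perp {d k : ℕ} (hk : k < d) (v : Fin k → V d) :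
    ∃ n : Fin 3 → V d, Orthonormal ℝ n ∧ ∀ i j, ⟪v j, n i⟫ = 0 := by
  have h1 : Module.finrank ℝ (Submodule.span ℝ (Set.range v)) ≤ k := by
    have h := finrank_range_le_card (R := ℝ) v
    rw [Fintype.card_fin] at h
    exact h
  have h2 := Submodule.finrank_add_finrank_orthogonal (Submodule.span ℝ (Set.range v))
  have h3 : Module.finrank ℝ (V d) = d + 2 := finrank_euclideanSpace_fin
  have h4 : 3 ≤ Module.finrank ℝ (Submodule.span ℝ (Set.range v))ᗮ := by omega
  let b := stdOrthonormalBasis ℝ (Submodule.span ℝ (Set.range v))ᗮ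
  refine ⟨fun i => (b (Fin.castLE h4 i) : V d), ?_, fun i j => ?_⟩
  · exact (b.orthonormal.comp _ (Fin.castLE_injective h4)).comp_linearIsometry
      (Submodule.span ℝ (Set.range v))ᗮ.subtypeₗᵢ
  · exact (Submodule.mem_orthogonal _ _).1 (b (Fin.castLE h4 i)).2 (v j)
      (Submodule.subset_span ⟨j, rfl⟩)

/-- **A good point off a lower dimensional plane.** -/
theorem pf_SPT (hTUB : T_TUB) (hMUF : T_MUF) : T_SPT := by
  intro d Λ c hd hΛ hc
  obtain ⟨C, hC, hT⟩ := hTUB d Λ hd hΛ
  have hC1 : 0 < C + 1 := by linarith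
  have hr0 : 0 < min (1 / 64) (c / (2 * (C + 1))) := lt_min (by norm_num) (by positivity)
  refine ⟨min (1 / 64) (c / (2 * (C + 1))), hr0, ?_⟩
  intro m G hG S x p s hs hb hS hm k hk v hv
  by_contra hcon
  push Not at hcon
  obtain ⟨n, hn1, hn2⟩ := exists_perp hk v
  have hr1 : min (1 / 64) (c / (2 * (C + 1))) ≤ 1 / 64 := min_le_left _ _
  have hr2 : min (1 / 64) (c / (2 * (C + 1))) ≤ c / (2 * (C + 1)) := min_le_right _ _
  generalize min (1 / 64) (c / (2 * (C + 1))) = r₁ at hr0 hr1 hr2 hcon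
  have hsub : S ⊆ {y : V d | y ∈ ball x (s / 64) ∧ ∀ i, |⟪y - p, n i⟫| < r₁ * s} := by
    intro y hy
    refine ⟨hS hy, fun i => ?_⟩
    have h1 : ⟪y - p, n i⟫ = ⟪(y - p) - ∑ j, ⟪v j, y - p⟫ • v j, n i⟫ := by
      rw [inner_sub_left (y - p), sum_inner]
      have h2 : ∑ j, ⟪⟪v j, y - p⟫ • v j, n i⟫ = 0 := by
        refine Finset.sum_eq_zero fun j _ => ?_
        rw [real_inner_smul_left, hn2 i j, mul_zero]
      rw [h2, sub_zero]
    rw [h1]
    refine lt_of_le_of_lt (abs_real_inner_le_norm _ _) ?_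
    rw [hn1.1 i, mul_one]
    exact hcon y hy
  have hfin : mu G univ ≠ ⊤ := (hMUF d m G hG.memG).1
  have h5 : (mu G).real S ≤
      (mu G).real {y : V d | y ∈ ball x (s / 64) ∧ ∀ i, |⟪y - p, n i⟫| < r₁ * s} :=
    measureReal_mono hsub (ne_top_of_le_ne_top hfin (measure_mono (subset_univ _)))
  have h6 := hT m G hG n p x (r₁ * s) (s / 64) hn1 (mul_pos hr0 hs)
    (by nlinarith [hr1, hs]) (subset_trans (ball_subset_ball (by linarith)) hb)
  have h7 : (s / 64) ^ (d - 1) ≤ s ^ (d - 1) :=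
    pow_le_pow_left₀ (by positivity) (by linarith) _
  have h8 : s ^ d = s * s ^ (d - 1) := by
    rw [← pow_succ']
    congr 1
    omega
  have h9 : C * (r₁ * s) * (s / 64) ^ (d - 1) ≤ C * r₁ * s ^ d := by
    rw [h8]
    have h10 : C * (r₁ * s) * (s / 64) ^ (d - 1) ≤ C * (r₁ * s) * s ^ (d - 1) :=
      mul_le_mul_of_nonneg_left h7 (by positivity)
    refine h10.trans (le_of_eq ?_)
    ring
  have h11 : C * r₁ < c := by
    have h12 : C * r₁ ≤ C * (c / (2 * (C + 1))) := mul_le_mul_of_nonneg_left hr2 hC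
    refine lt_of_le_of_lt h12 ?_
    rw [mul_div_assoc', div_lt_iff₀ (by positivity)]
    nlinarith [mul_nonneg hC hc.le]
  have h13 : c * s ^ d ≤ C * r₁ * s ^ d := hm.trans (h5.trans (h6.trans h9))
  have h14 : 0 < s ^ d := pow_pos hs d
  nlinarith [mul_lt_mul_of_pos_right h11 h14]

end

end Pool.Agent.H36.AN
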